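import Pool.Agent.UHT.TLoc

/-!
# The degree of a collision at a tame place
-/

set_option autoImplicit false

open IsDedekindDomain NumberField
open scoped WithZero

namespace Pool.Agent.UHT

open Pool.Agent.UH
open Pool.Agent.Arb.DB (od u_ne od_mul od_pos od_nonneg od_lt od_le od_eq od_add_eq od_add_ge
  od_pow)

/-- A power of `ℓ` dividing `Q ^ r - 1` is at most a constant times `r`. -/
theorem lte_bound {p Q r m : ℕ} (hp : p.Prime) (hQ : 2 ≤ Q) (hpQ : ¬ p ∣ Q) (hr : 0 < r)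
    (h : p ^ m ∣ Q ^ r - 1) : p ^ m ≤ Q ^ (p + 1) * r := by
  have hfact : Fact p.Prime := ⟨hp⟩
  have hQ1 : 1 < Q := hQ
  have hvr : p ^ padicValNat p r ≤ r := Nat.le_of_dvd hr pow_padicValNat_dvd
  rcases hp.eq_two_or_odd' with h2 | hodd
  · -- `p = 2`
    subst h2
    have hne : Q ^ (2 * r) - 1 ≠ 0 := by
      have := Nat.one_lt_pow (by omega : 2 * r ≠ 0) hQ1
      omega
    have hdvd : 2 ^ m ∣ Q ^ (2 * r) - 1 := by
      refine h.trans ?_
      have := Nat.sub_dvd_pow_sub_pow (Q ^ r) 1 2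
      rw [one_pow, ← pow_mul, mul_comm r 2] at this
      exact this
    have h3 := (padicValNat_dvd_iff_le hne).mp hdvd
    have hodd : Odd Q := by
      rw [← Nat.not_even_iff_odd, even_iff_two_dvd]; exact hpQ
    have h4 := padicValNat.pow_two_sub_pow (x := Q) (y := 1) hQ1 (by
      obtain ⟨k, hk⟩ := hodd
      exact ⟨k, by omega⟩) hpQ (n := 2 * r) (by omega) (even_two_mul r)
    rw [one_pow] at h4
    have h5 : padicValNat 2 (2 * r) = 1 + padicValNat 2 r := by
      rw [padicValNat.mul (by norm_num) (by omega)]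
      simp
    have h6 : padicValNat 2 (Q ^ (2 * r) - 1) =
        padicValNat 2 (Q + 1) + padicValNat 2 (Q - 1) + padicValNat 2 r := by omega
    have h7 : 2 ^ padicValNat 2 (Q + 1) ≤ Q + 1 := Nat.le_of_dvd (by omega) pow_padicValNat_dvd
    have h8 : 2 ^ padicValNat 2 (Q - 1) ≤ Q - 1 := Nat.le_of_dvd (by omega) pow_padicValNat_dvd
    calc 2 ^ m ≤ 2 ^ (padicValNat 2 (Q + 1) + padicValNat 2 (Q - 1) + padicValNat 2 r) :=
          Nat.pow_le_pow_right (by norm_num) (by omega)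
      _ = 2 ^ padicValNat 2 (Q + 1) * 2 ^ padicValNat 2 (Q - 1) * 2 ^ padicValNat 2 r := by
          rw [pow_add, pow_add]
      _ ≤ (Q + 1) * (Q - 1) * r := by gcongr
      _ ≤ Q ^ (2 + 1) * r := by
          gcongr
          have e : (Q + 1) * (Q - 1) = Q ^ 2 - 1 := by
            have := Nat.sq_sub_sq Q 1
            rw [one_pow] at this
            exact this.symm
          rw [e]
          calc Q ^ 2 - 1 ≤ Q ^ 2 := Nat.sub_le _ _
            _ ≤ Q ^ (2 + 1) := Nat.pow_le_pow_right (by omega) (by omega)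
  · -- `p` odd
    set Q0 := Q ^ (p - 1) with hQ0
    have hp1 : p - 1 ≠ 0 := by have := hp.two_le; omega
    have hQ01 : 1 < Q0 := Nat.one_lt_pow hp1 hQ1
    have hcop : Nat.Coprime Q p := (Nat.Prime.coprime_iff_not_dvd hp).mpr hpQ |>.symm
    have hferm : p ∣ Q0 - 1 := by
      have := Nat.ModEq.pow_totient hcop
      rw [Nat.totient_prime hp] at this
      exact (Nat.modEq_iff_dvd' hQ01.le).mp this.symm
    have hpQ0 : ¬ p ∣ Q0 := fun h' => hpQ (hp.dvd_of_dvd_pow h')
    have hne : Q0 ^ r - 1 ≠ 0 := by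
      have := Nat.one_lt_pow (by omega : r ≠ 0) hQ01
      omega
    have hdvd : p ^ m ∣ Q0 ^ r - 1 := by
      refine h.trans ?_
      have := Nat.sub_dvd_pow_sub_pow (Q ^ r) 1 (p - 1)
      rw [one_pow, ← pow_mul, mul_comm r (p - 1), pow_mul] at this
      exact this
    have h3 := (padicValNat_dvd_iff_le hne).mp hdvd
    have h4 := padicValNat.pow_sub_pow hodd (x := Q0) (y := 1) hQ01 hferm hpQ0 (n := r)
      (by omega)
    rw [one_pow] at h4
    have h7 : p ^ padicValNat p (Q0 - 1) ≤ Q0 - 1 :=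
      Nat.le_of_dvd (by omega) pow_padicValNat_dvd
    calc p ^ m ≤ p ^ (padicValNat p (Q0 - 1) + padicValNat p r) :=
          Nat.pow_le_pow_right hp.pos (by omega)
      _ = p ^ padicValNat p (Q0 - 1) * p ^ padicValNat p r := by rw [pow_add]
      _ ≤ (Q0 - 1) * r := by gcongr
      _ ≤ Q ^ (p + 1) * r := by
          gcongr
          calc Q0 - 1 ≤ Q0 := Nat.sub_le _ _
            _ ≤ Q ^ (p + 1) := Nat.pow_le_pow_right (by omega) (by omega)

/-- A prime above with its ramification index and its inertia degree. -/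
theorem exists_above' {K : Type*} [Field K] [NumberField K] (v : HeightOneSpectrum (𝓞 K))
    (E : Type*) [Field E] [NumberField E] [Algebra K E] :
    ∃ (W : HeightOneSpectrum (𝓞 E)) (e r : ℕ), 0 < e ∧ e ≤ Module.finrank K E ∧ 0 < r ∧
      r ≤ Module.finrank K E ∧ Nat.card (𝓞 E ⧸ W.asIdeal) = Nat.card (𝓞 K ⧸ v.asIdeal) ^ r ∧
      ∀ x : K, v.valuation K x ^ e = W.valuation E (algebraMap K E x) := by
  have : v.asIdeal.IsMaximal := v.isMaximal
  obtain ⟨Q, hQ1, hQ2⟩ := Ideal.exists_maximal_ideal_liesOver_of_isIntegral (S := 𝓞 E) v.asIdeal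
  have hQ3 : Q ≠ ⊥ := by
    rintro rfl
    have h1 := hQ2.over
    have h2 : (⊥ : Ideal (𝓞 E)).under (𝓞 K) = ⊥ := by
      rw [Ideal.under_bot]
    rw [h2] at h1
    exact v.ne_bot h1
  let W : HeightOneSpectrum (𝓞 E) := ⟨Q, hQ1.isPrime, hQ3⟩
  have hW : W.asIdeal.LiesOver v.asIdeal := hQ2
  have hWm : W.asIdeal.IsMaximal := hQ1
  have h1 : ∀ (r : 𝓞 K) (m : 𝓞 E), r • m = 0 → r = 0 ∨ m = 0 := by
    intro r m h
    rw [Algebra.smul_def, mul_eq_zero] at h
    rcases h with h | h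
    · left
      exact (FaithfulSMul.algebraMap_injective (𝓞 K) (𝓞 E)) (by rw [h, map_zero])
    · right
      exact h
  have h2 : NoZeroSMulDivisors (𝓞 K) (𝓞 E) := ⟨fun {r m} h => h1 r m h⟩
  refine ⟨W, v.asIdeal.ramificationIdx' W.asIdeal, W.asIdeal.inertiaDeg (𝓞 K), ?_, ?_, ?_, ?_,
    ?_, ?_⟩
  · exact Nat.pos_of_ne_zero
      (Ideal.IsDedekindDomain.ramificationIdx'_ne_zero_of_liesOver W.asIdeal v.ne_bot)
  · exact Ideal.ramificationIdx_le_finrank (𝓞 E) K E (p := v.asIdeal) W.asIdeal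
  · exact Ideal.inertiaDeg_pos W.asIdeal (𝓞 K)
  · rw [← Ideal.inertiaDeg'_eq_inertiaDeg v.asIdeal W.asIdeal]
    exact Ideal.inertiaDeg_le_finrank (𝓞 E) K E (p := v.asIdeal) W.asIdeal v.ne_bot
  · exact (Ideal.cardQuot_pow_inertiaDeg v.asIdeal W.asIdeal).symm
  · intro x
    exact HeightOneSpectrum.valuation_liesOver E v W x

/-- A root of unity modulo a prime. -/
theorem residue_bound {E : Type*} [Field E] [NumberField E] (w : HeightOneSpectrum (𝓞 E))
    {p s N : ℕ} (hp : p.Prime) {ρ : E} (h1 : w.valuation E ρ = 1)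
    (h2 : w.valuation E (ρ ^ (p ^ s) ^ N - 1) = 1)
    (h3 : w.valuation E (ρ ^ (p ^ s) ^ (N + 1) - 1) < 1) :
    p ^ (s * N + 1) ∣ Nat.card (𝓞 E ⧸ w.asIdeal) - 1 := by
  have hmax : w.asIdeal.IsMaximal := w.isMaximal
  let _ : Field (𝓞 E ⧸ w.asIdeal) := Ideal.Quotient.field w.asIdeal
  have hfin : Finite (𝓞 E ⧸ w.asIdeal) := Ideal.finiteQuotientOfFreeOfNeBot _ w.ne_bot
  have hft : Fintype (𝓞 E ⧸ w.asIdeal) := Fintype.ofFinite _
  obtain ⟨a, ha⟩ := w.exists_valuation_sub_lt_of_integer (K := E) h1.le 1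
  have ha' : w.valuation E (algebraMap (𝓞 E) E a - ρ) < 1 := by simpa using ha
  have hua : w.valuation E (algebraMap (𝓞 E) E a) = 1 := by
    have e : algebraMap (𝓞 E) E a = ρ + (algebraMap (𝓞 E) E a - ρ) := by ring
    rw [e, Valuation.map_add_eq_of_lt_left _ (by rw [h1]; exact ha'), h1]
  -- powers
  have hpow : ∀ n : ℕ, w.valuation E (algebraMap (𝓞 E) E a ^ n - ρ ^ n) < 1 := by
    intro n
    have hcl : Cl (w.valuation E) (algebraMap (𝓞 E) E a) ρ := by
      unfold Cl; rw [h1]; exact ha'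
    have := hcl.pow n
    unfold Cl at this
    rw [map_pow, h1, one_pow] at this
    exact this
  set abar := Ideal.Quotient.mk w.asIdeal a with habar
  have hmem : ∀ n : ℕ, abar ^ n = 1 ↔ w.valuation E (ρ ^ n - 1) < 1 := by
    intro n
    have e1 : abar ^ n = 1 ↔ a ^ n - 1 ∈ w.asIdeal := by
      rw [habar, ← map_pow, ← map_one (Ideal.Quotient.mk w.asIdeal), Ideal.Quotient.eq]
    rw [e1, ← w.valuation_lt_one_iff_mem (K := E)]
    have e2 : algebraMap (𝓞 E) E (a ^ n - 1) = (ρ ^ n - 1) +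
        (algebraMap (𝓞 E) E a ^ n - ρ ^ n) := by
      rw [map_sub, map_pow, map_one]; ring
    have e3 : ρ ^ n - 1 = algebraMap (𝓞 E) E (a ^ n - 1) -
        (algebraMap (𝓞 E) E a ^ n - ρ ^ n) := by rw [e2]; ring
    constructor
    · intro h
      rw [e3]
      exact Valuation.map_sub_lt _ h (hpow n)
    · intro h
      change w.valuation E (algebraMap (𝓞 E) E (a ^ n - 1)) < 1
      rw [e2]
      exact Valuation.map_add_lt _ h (hpow n)
  have ho1 : abar ^ (p ^ s) ^ (N + 1) = 1 := (hmem _).mpr h3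
  have ho2 : abar ^ (p ^ s) ^ N ≠ 1 := by
    intro h
    have := (hmem _).mp h
    rw [h2] at this
    exact lt_irrefl _ this
  have hdvd1 : orderOf abar ∣ p ^ (s * (N + 1)) := by
    rw [pow_mul]; exact orderOf_dvd_of_pow_eq_one ho1
  obtain ⟨t, ht, hot⟩ := (Nat.dvd_prime_pow hp).mp hdvd1
  have hlt : s * N < t := by
    by_contra hcon
    push Not at hcon
    apply ho2
    rw [← pow_mul]
    apply orderOf_dvd_iff_pow_eq_one.mp
    rw [hot]
    exact pow_dvd_pow p hcon
  have ha0 : abar ≠ 0 := by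
    intro h
    apply ho2
    exfalso
    rw [h, zero_pow (pow_ne_zero _ (pow_ne_zero _ hp.ne_zero))] at ho1
    exact zero_ne_one ho1
  have hcard : abar ^ (Fintype.card (𝓞 E ⧸ w.asIdeal) - 1) = 1 :=
    FiniteField.pow_card_sub_one_eq_one abar ha0
  have h5 := orderOf_dvd_of_pow_eq_one hcard
  rw [hot] at h5
  rw [Nat.card_eq_fintype_card]
  exact (pow_dvd_pow p (by omega)).trans h5

section
variable {K : Type*} [Field K] [NumberField K]

/-- **Collisions have large degree, tame case.** -/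
theorem collision {p s : ℕ} (hp : p.Prime) (hs : 0 < s) (c : K) (hc0 : c ≠ 0)
    (v : HeightOneSpectrum (𝓞 K)) (hv : v.valuation K (p : K) = 1) (hc : v.valuation K c < 1) :
    ∃ C0 : ℕ, 0 < C0 ∧ ∀ (E : Type*) [Field E] [NumberField E] [Algebra K E] (x y : E) (N : ℕ),
      (fc (p ^ s) (algebraMap K E c))^[N + 1] x = (fc (p ^ s) (algebraMap K E c))^[N + 1] y →
      (fc (p ^ s) (algebraMap K E c))^[N] x ≠ (fc (p ^ s) (algebraMap K E c))^[N] y →
        (p ^ s) ^ N ≤ C0 * Module.finrank K E := by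
  have hρ : 0 < od (v.valuation K) c := (od_pos _ hc0).mp hc
  have hvmax : v.asIdeal.IsMaximal := v.isMaximal
  let _ : Field (𝓞 K ⧸ v.asIdeal) := Ideal.Quotient.field v.asIdeal
  have hfin : Finite (𝓞 K ⧸ v.asIdeal) := Ideal.finiteQuotientOfFreeOfNeBot _ v.ne_bot
  set Q := Nat.card (𝓞 K ⧸ v.asIdeal) with hQ
  have hQ2 : 2 ≤ Q := Finite.one_lt_card
  -- `p` does not divide `Q`
  have hpQ : ¬ p ∣ Q := by
    intro h
    have hmem : (p : 𝓞 K) ∈ v.asIdeal := by
      have hft : Fintype (𝓞 K ⧸ v.asIdeal) := Fintype.ofFinite _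
      obtain ⟨ℓ, hℓ⟩ := CharP.exists (𝓞 K ⧸ v.asIdeal)
      obtain ⟨n, hℓp, hn⟩ := FiniteField.card (𝓞 K ⧸ v.asIdeal) ℓ
      rw [hQ, Nat.card_eq_fintype_card, hn] at h
      have h6 : p = ℓ := (Nat.prime_dvd_prime_iff_eq hp hℓp).mp (hp.dvd_of_dvd_pow h)
      have h7 : ((ℓ : ℕ) : 𝓞 K ⧸ v.asIdeal) = 0 := CharP.cast_eq_zero _ ℓ
      rw [← h6] at h7
      rw [← Ideal.Quotient.eq_zero_iff_mem]
      simpa using h7
    have h8 := (v.valuation_lt_one_iff_mem (K := K) (p : 𝓞 K)).mpr hmem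
    have h9 : algebraMap (𝓞 K) K (p : 𝓞 K) = (p : K) := map_natCast _ p
    have h10 : v.valuation K (p : K) < 1 := by rw [← h9]; exact h8
    rw [hv] at h10
    exact lt_irrefl _ h10
  have hq2 : 2 ≤ p ^ s := by
    calc 2 ≤ p := hp.two_le
      _ = p ^ 1 := (pow_one p).symm
      _ ≤ p ^ s := Nat.pow_le_pow_right hp.pos hs
  refine ⟨(od (v.valuation K) c).toNat + Q ^ (p + 1), by omega, ?_⟩
  intro E _ _ _ x y N heq hne
  obtain ⟨w, e, r, he0, he, hr0, hr, hcard, hw⟩ := exists_above' v E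
  have hcE0 : algebraMap K E c ≠ 0 := by rw [ne_eq, map_eq_zero]; exact hc0
  have hcE : w.valuation E (algebraMap K E c) < 1 := by
    rw [← hw]; exact pow_lt_one₀ zero_le hc (by omega)
  have hpE : w.valuation E ((p ^ s : ℕ) : E) = 1 := by
    have := hw (p : K)
    rw [map_natCast (algebraMap K E), hv, one_pow] at this
    push_cast
    rw [map_pow, ← this, one_pow]
  rcases local_collision hq2 hpE hcE0 hcE heq hne with ⟨z, hz⟩ | ⟨ρ, h1, h2, h3⟩
  · -- ramification
    have hodc : od (w.valuation E) (algebraMap K E c) = e * od (v.valuation K) c :=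
      od_pow (v.valuation K) e (w.valuation E) (hw c).symm
    have hqN : (p ^ s) ^ N ≠ 0 := by positivity
    have hodz : od (w.valuation E) (algebraMap K E c) =
        ((p ^ s) ^ N : ℕ) * od (w.valuation E) z :=
      od_pow (w.valuation E) ((p ^ s) ^ N) (w.valuation E) hz.symm
    have h4 : (0 : ℤ) < e * od (v.valuation K) c := by positivity
    have h5 : 0 < od (w.valuation E) z := by
      rw [← hodc, hodz] at h4
      exact pos_of_mul_pos_right h4 (by positivity)
    have h6 : (((p ^ s) ^ N : ℕ) : ℤ) ≤ Module.finrank K E * od (v.valuation K) c := by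
      calc (((p ^ s) ^ N : ℕ) : ℤ) = ((p ^ s) ^ N : ℕ) * 1 := (mul_one _).symm
        _ ≤ ((p ^ s) ^ N : ℕ) * od (w.valuation E) z :=
            mul_le_mul_of_nonneg_left (by omega) (by positivity)
        _ = e * od (v.valuation K) c := by rw [← hodz, hodc]
        _ ≤ Module.finrank K E * od (v.valuation K) c :=
            mul_le_mul_of_nonneg_right (by exact_mod_cast he) hρ.le
    have h7 : (((p ^ s) ^ N : ℕ) : ℤ) ≤
        (((od (v.valuation K) c).toNat * Module.finrank K E : ℕ) : ℤ) := by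
      rw [Nat.cast_mul, Int.toNat_of_nonneg hρ.le, mul_comm]
      exact h6
    have h8 : (p ^ s) ^ N ≤ (od (v.valuation K) c).toNat * Module.finrank K E := by
      exact_mod_cast h7
    exact h8.trans (Nat.mul_le_mul_right _ (Nat.le_add_right _ _))
  · -- inertia
    have h4 := residue_bound w hp h1 h2 h3
    rw [hcard] at h4
    have h5 := lte_bound hp hQ2 hpQ hr0 h4
    calc (p ^ s) ^ N = p ^ (s * N) := by rw [pow_mul]
      _ ≤ p ^ (s * N + 1) := Nat.pow_le_pow_right hp.pos (Nat.le_succ _)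
      _ ≤ Q ^ (p + 1) * r := h5
      _ ≤ Q ^ (p + 1) * Module.finrank K E := Nat.mul_le_mul_left _ hr
      _ ≤ _ := Nat.mul_le_mul_right _ (Nat.le_add_left _ _)

end

end Pool.Agent.UHT
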