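import Pool.Agent.UH.Coll

/-!
# Collisions of `x ↦ x ^ q + c` at a tame place where `c` is small
-/

set_option autoImplicit false

open IsDedekindDomain NumberField
open scoped WithZero

namespace Pool.Agent.UHT

open Pool.Agent.UH
open Pool.Agent.Arb.DB (od u_ne od_mul od_pos od_nonneg od_lt od_le od_eq od_add_eq od_add_ge
  od_pow)

section
variable {F : Type*} [Field F] (u : Valuation F ℤᵐ⁰)

/-- `a / b` is a principal unit. -/
def Cl (a b : F) : Prop := u (a - b) < u b

variable {u}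

theorem Cl.val {a b : F} (h : Cl u a b) : u a = u b := Valuation.map_eq_of_sub_lt u h

theorem Cl.pos {a b : F} (h : Cl u a b) : 0 < u b := lt_of_le_of_lt zero_le h

theorem Cl.ne {a b : F} (h : Cl u a b) : b ≠ 0 := by
  rintro rfl
  have := h.pos
  rw [map_zero] at this
  exact lt_irrefl _ this

theorem Cl.refl {a : F} (h : a ≠ 0) : Cl u a a := by
  unfold Cl
  rw [sub_self, map_zero]
  exact zero_lt_iff.mpr (u_ne u h)

theorem Cl.symm {a b : F} (h : Cl u a b) : Cl u b a := by
  have := h.val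
  unfold Cl at *
  rw [Valuation.map_sub_swap, this]
  exact h

theorem Cl.trans {a b d : F} (h1 : Cl u a b) (h2 : Cl u b d) : Cl u a d := by
  have h3 := h2.val
  unfold Cl at *
  have e : a - d = (a - b) + (b - d) := by ring
  rw [e]
  exact Valuation.map_add_lt u (h1.trans_eq h3) h2

theorem Cl.mul {a b a' b' : F} (h1 : Cl u a b) (h2 : Cl u a' b') : Cl u (a * a') (b * b') := by
  have h3 := h2.val
  have h4 := h1.pos
  have h5 := h2.pos
  unfold Cl at *
  have e : a * a' - b * b' = (a - b) * a' + b * (a' - b') := by ring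
  rw [e]
  refine Valuation.map_add_lt u ?_ ?_
  · rw [map_mul, map_mul, h3]
    exact mul_lt_mul_of_pos_right h1 h5
  · rw [map_mul, map_mul]
    exact mul_lt_mul_of_pos_left h2 h4

theorem Cl.pow {a b : F} (h : Cl u a b) (n : ℕ) : Cl u (a ^ n) (b ^ n) := by
  induction n with
  | zero => rw [pow_zero, pow_zero]; exact Cl.refl one_ne_zero
  | succ n ih => rw [pow_succ, pow_succ]; exact ih.mul h

theorem pow_small {q : ℕ} (hq : 2 ≤ q) {c w : F} (hc0 : c ≠ 0) (hc1 : u c < 1)
    (hw : u w ≤ u c) : u w ^ q < u c := by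
  calc u w ^ q ≤ u c ^ q := pow_le_pow_left₀ zero_le hw q
    _ < u c := pow_lt_self_of_lt_one₀ (zero_lt_iff.mpr (u_ne u hc0)) hc1 (by omega)

/-- The three kinds of behaviour of an orbit. -/
theorem trichotomy {q : ℕ} (hq : 2 ≤ q) {c : F} (hc0 : c ≠ 0) (hc1 : u c < 1) (z : F) (n : ℕ) :
    Cl u ((fc q c)^[n] z) (z ^ q ^ n) ∨
    (u z ^ q ^ n = u c ∧ u ((fc q c)^[n] z) ≤ u c) ∨
    Cl u ((fc q c)^[n] z) c ∨ (n = 0 ∧ z = 0) := by
  induction n with
  | zero =>
    by_cases hz : z = 0
    · exact Or.inr (Or.inr (Or.inr ⟨rfl, hz⟩))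
    · left
      rw [pow_zero, pow_one]
      exact Cl.refl hz
  | succ n ih =>
    have small : ∀ w : F, u w ≤ u c → Cl u (fc q c w) c := by
      intro w hw
      unfold Cl fc
      rw [add_sub_cancel_right, map_pow]
      exact pow_small hq hc0 hc1 hw
    rw [Function.iterate_succ_apply']
    set w := (fc q c)^[n] z with hw
    rcases ih with h | ⟨_, h⟩ | h | ⟨_, h⟩
    · have h3 := h.val
      have e : z ^ q ^ (n + 1) = (z ^ q ^ n) ^ q := by rw [← pow_mul, ← pow_succ]
      rcases lt_trichotomy (u w ^ q) (u c) with h4 | h4 | h4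
      · right; right; left
        unfold Cl fc
        rw [add_sub_cancel_right, map_pow]
        exact h4
      · right; left
        refine ⟨?_, ?_⟩
        · rw [← map_pow, e, map_pow, ← h3, h4]
        · unfold fc
          refine Valuation.map_add_le u ?_ le_rfl
          rw [map_pow, h4]
      · left
        have h5 : Cl u (fc q c w) (w ^ q) := by
          unfold Cl fc
          rw [add_sub_cancel_left, map_pow]
          exact h4
        rw [e]
        exact h5.trans (h.pow q)
    · exact Or.inr (Or.inr (Or.inl (small w h)))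
    · exact Or.inr (Or.inr (Or.inl (small w h.val.le)))
    · rename_i hn
      right; right; left
      apply small
      rw [hw, hn, h, Function.iterate_zero, id, map_zero]
      exact zero_le

/-- `0` is not periodic. -/
theorem zero_not_periodic {q : ℕ} (hq : 2 ≤ q) {c : F} (hc0 : c ≠ 0) (hc1 : u c < 1) {m : ℕ}
    (hm : 0 < m) : (fc q c)^[m] 0 ≠ 0 := by
  have hqm : q ^ m ≠ 0 := pow_ne_zero _ (by omega)
  rcases trichotomy hq hc0 hc1 0 m with h | ⟨h, _⟩ | h | ⟨h, _⟩
  · exact absurd (zero_pow hqm) h.ne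
  · rw [map_zero, zero_pow hqm] at h
    exact absurd h.symm (u_ne u hc0)
  · intro h0
    have h1 := h.val
    rw [h0, map_zero] at h1
    exact u_ne u hc0 h1.symm
  · omega

theorem tame_root {q : ℕ} (hq : 1 ≤ q) (huq : u (q : F) = 1) {w : F} (hw : w ^ q = 1)
    (hw1 : w ≠ 1) : u (w - 1) = 1 := by
  have hq0 : (q : F) ≠ 0 := by
    intro h
    rw [h, map_zero] at huq
    exact zero_ne_one huq
  obtain ⟨h1, h2⟩ := root_far u hq hq0 hw hw1
  apply le_antisymm
  · have huw : u w ≤ 1 := by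
      by_contra hcon
      push Not at hcon
      have := one_lt_pow₀ hcon (by omega : q ≠ 0)
      rw [← map_pow, hw, map_one] at this
      exact lt_irrefl _ this
    exact Valuation.map_sub_le u huw (by rw [map_one])
  · have := (od_le u hq0 h1).mpr h2
    rw [huq] at this
    exact this

/-- **Collisions at a tame place.** -/
theorem local_collision {q : ℕ} (hq : 2 ≤ q) (huq : u (q : F) = 1) {c : F} (hc0 : c ≠ 0)
    (hc1 : u c < 1) {x y : F} {N : ℕ} (h1 : (fc q c)^[N + 1] x = (fc q c)^[N + 1] y)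
    (h2 : (fc q c)^[N] x ≠ (fc q c)^[N] y) :
    (∃ z : F, u z ^ q ^ N = u c) ∨
      ∃ ρ : F, u ρ = 1 ∧ u (ρ ^ q ^ N - 1) = 1 ∧ u (ρ ^ q ^ (N + 1) - 1) < 1 := by
  rw [Function.iterate_succ_apply', Function.iterate_succ_apply'] at h1
  have h3 : ((fc q c)^[N] x) ^ q = ((fc q c)^[N] y) ^ q := add_right_cancel h1
  have hq0 : q ≠ 0 := by omega
  have hy0 : (fc q c)^[N] y ≠ 0 := by
    intro h
    rw [h, zero_pow hq0] at h3
    exact h2 ((pow_eq_zero_iff hq0).mp h3 |>.trans h.symm)
  have hx0 : (fc q c)^[N] x ≠ 0 := by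
    intro h
    rw [h, zero_pow hq0] at h3
    exact hy0 ((pow_eq_zero_iff hq0).mp h3.symm)
  have huxy : u ((fc q c)^[N] x) = u ((fc q c)^[N] y) := by
    have := congrArg u h3
    rw [map_pow, map_pow] at this
    exact (pow_left_inj₀ zero_le zero_le hq0).mp this
  set ω := (fc q c)^[N] x / (fc q c)^[N] y with hω
  have hω1 : ω ^ q = 1 := by
    rw [hω, div_pow, h3, div_self (pow_ne_zero q hy0)]
  have hω2 : ω ≠ 1 := by
    intro h
    rw [hω, div_eq_one_iff_eq hy0] at h
    exact h2 h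
  have hω3 := tame_root (u := u) (by omega) huq hω1 hω2
  have hω0 : ω ≠ 0 := div_ne_zero hx0 hy0
  have hncl : ¬ Cl u ((fc q c)^[N] x) ((fc q c)^[N] y) := by
    intro h
    unfold Cl at h
    have e : (fc q c)^[N] x - (fc q c)^[N] y = (fc q c)^[N] y * (ω - 1) := by
      rw [hω, mul_sub, mul_div_cancel₀ _ hy0, mul_one]
    rw [e, map_mul, hω3, mul_one] at h
    exact lt_irrefl _ h
  rcases trichotomy hq hc0 hc1 x N with hx | ⟨hx, _⟩ | hx | ⟨hN, hx⟩
  · rcases trichotomy hq hc0 hc1 y N with hy | ⟨hy, _⟩ | hy | ⟨hN, hy⟩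
    · right
      have hxN : x ^ q ^ N ≠ 0 := hx.ne
      have hyN : y ^ q ^ N ≠ 0 := hy.ne
      have hqN : q ^ N ≠ 0 := pow_ne_zero _ hq0
      have hx' : x ≠ 0 := fun h => hxN (by rw [h, zero_pow hqN])
      have hy' : y ≠ 0 := fun h => hyN (by rw [h, zero_pow hqN])
      have huv : u x = u y := by
        have h4 : u (x ^ q ^ N) = u (y ^ q ^ N) := by rw [← hx.val, ← hy.val, huxy]
        rw [map_pow, map_pow] at h4
        exact (pow_left_inj₀ zero_le zero_le hqN).mp h4
      have hρ1 : u (x / y) = 1 := by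
        rw [map_div₀, huv, div_self (u_ne u hy')]
      -- `ρ ^ (q ^ N)` is close to `ω`
      have hcl : Cl u ((x / y) ^ q ^ N) ω := by
        have hinv : Cl u (y ^ q ^ N)⁻¹ ((fc q c)^[N] y)⁻¹ := by
          have h5 := hy.val
          unfold Cl at hy ⊢
          have e : (y ^ q ^ N)⁻¹ - ((fc q c)^[N] y)⁻¹ =
              ((fc q c)^[N] y - y ^ q ^ N) * ((y ^ q ^ N)⁻¹ * ((fc q c)^[N] y)⁻¹) := by
            field_simp
          rw [e, map_mul, map_mul, map_inv₀, map_inv₀, h5]
          have hp : 0 < (u (y ^ q ^ N))⁻¹ := by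
            rw [inv_pos]; exact zero_lt_iff.mpr (u_ne u hyN)
          calc u ((fc q c)^[N] y - y ^ q ^ N) * ((u (y ^ q ^ N))⁻¹ * (u (y ^ q ^ N))⁻¹)
              < u (y ^ q ^ N) * ((u (y ^ q ^ N))⁻¹ * (u (y ^ q ^ N))⁻¹) :=
                mul_lt_mul_of_pos_right hy (mul_pos hp hp)
            _ = (u (y ^ q ^ N))⁻¹ := by
                rw [← mul_assoc, mul_inv_cancel₀ (u_ne u hyN), one_mul]
        have := hx.symm.mul hinv
        rw [div_pow, hω, div_eq_mul_inv, div_eq_mul_inv]
        exact this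
      have hω4 : u ω = 1 := by
        rw [hω, map_div₀, huxy, div_self (u_ne u hy0)]
      refine ⟨x / y, hρ1, ?_, ?_⟩
      · have e : (x / y) ^ q ^ N - 1 = (ω - 1) + ((x / y) ^ q ^ N - ω) := by ring
        have h6 : u ((x / y) ^ q ^ N - ω) < u (ω - 1) := by
          rw [hω3, ← hω4]; exact hcl
        rw [e, Valuation.map_add_eq_of_lt_left u h6, hω3]
      · have h7 := hcl.pow q
        unfold Cl at h7
        rw [hω1, map_one, ← pow_mul, ← pow_succ] at h7
        exact h7
    · exact Or.inl ⟨y, hy⟩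
    · left
      refine ⟨x, ?_⟩
      rw [← map_pow, ← hx.val, huxy, hy.val]
    · exfalso
      apply hy0
      rw [hN, hy, Function.iterate_zero, id]
  · exact Or.inl ⟨x, hx⟩
  · rcases trichotomy hq hc0 hc1 y N with hy | ⟨hy, _⟩ | hy | ⟨hN, hy⟩
    · left
      refine ⟨y, ?_⟩
      rw [← map_pow, ← hy.val, ← huxy, hx.val]
    · exact Or.inl ⟨y, hy⟩
    · exact absurd (hx.trans hy.symm) hncl
    · exfalso
      apply hy0
      rw [hN, hy, Function.iterate_zero, id]
  · exfalso
    apply hx0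
    rw [hN, hx, Function.iterate_zero, id]

end

end Pool.Agent.UHT
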