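import Pool.Agent.UH.Cmp
import Pool.Agent.UHT.TColl

/-!
# Collisions on a curve have bounded height, from a bound for the degree
-/

set_option autoImplicit false

universe u

open NumberField Polynomial IsDedekindDomain

namespace Pool.Agent.UHT

open Pool.Agent.UH hiding collision collisions_bounded

section
variable {K : Type*} [Field K] [NumberField K]

/-- **Collisions on a curve.** -/
theorem collisions_bounded {Ω : Type u} [Field Ω] [CharZero Ω] [Algebra K Ω] [IsAlgClosed Ω]
    [Algebra.IsAlgebraic ℚ Ω] [Algebra.IsAlgebraic K Ω]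
    {F : Type*} [Field F] [Algebra K F] {p s : ℕ} (hp : p.Prime) (hs : 0 < s) (c : K) {C0 : ℕ}
    (hC0 : ∀ (E : Type u) [Field E] [NumberField E] [Algebra K E] (x y : E) (N : ℕ),
      (fc (p ^ s) (algebraMap K E c))^[N + 1] x = (fc (p ^ s) (algebraMap K E c))^[N + 1] y →
      (fc (p ^ s) (algebraMap K E c))^[N] x ≠ (fc (p ^ s) (algebraMap K E c))^[N] y →
        (p ^ s) ^ N ≤ C0 * Module.finrank K E) {ξ η : F}
    (hη : IsIntegral (IntermediateField.adjoin K {ξ}) η) :
    ∃ B : ℝ, 0 ≤ B ∧ ∀ k : ℕ,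
      (fc (p ^ s) (algebraMap K F c))^[k] ξ ≠ (fc (p ^ s) (algebraMap K F c))^[k] η →
      ∀ x y : Ω, Spec K ξ η x y →
        (fc (p ^ s) (algebraMap K Ω c))^[k] x = (fc (p ^ s) (algebraMap K Ω c))^[k] y →
          absLogHeight₁ x ≤ B := by
  classical
  obtain ⟨D, g, hD, hgD, hrel, hnz⟩ := exists_rel hη
  obtain ⟨a, b, hb, hab⟩ := IsFractionRing.div_surjective (A := 𝓞 K) c
  have hb0 : (b : K) ≠ 0 := by
    have := nonZeroDivisors.ne_zero hb
    simpa using this
  have hab' : (a : K) = b * c := by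
    rw [← hab]; field_simp
  set q := p ^ s with hq
  have hq2 : 2 ≤ q := by
    calc 2 ≤ p := hp.two_le
      _ = p ^ 1 := (pow_one p).symm
      _ ≤ p ^ s := Nat.pow_le_pow_right hp.pos hs
  -- the leading coefficient
  have hgD0 : g D ≠ 0 := by
    rintro h
    rw [h, map_zero] at hgD
    exact hgD rfl
  have hP0 : ((g D).map (algebraMap (𝓞 K) K)).map (algebraMap K Ω) ≠ 0 := by
    rw [Polynomial.map_ne_zero_iff (algebraMap K Ω).injective,
      Polynomial.map_ne_zero_iff (FaithfulSMul.algebraMap_injective (𝓞 K) K)]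
    exact hgD0
  obtain ⟨B1, hB1, hB1'⟩ := finite_roots_bound _ hP0
  -- the constants
  set A : ℝ := 1 + ∑ σ : K →+* ℂ, (‖σ a‖ + ‖σ b‖) with hA
  have hA1 : 1 ≤ A := by
    have : 0 ≤ ∑ σ : K →+* ℂ, (‖σ a‖ + ‖σ b‖) := Finset.sum_nonneg fun σ _ => by positivity
    linarith
  have hAab : ∀ σ : K →+* ℂ, ‖σ a‖ + ‖σ b‖ ≤ A := fun σ => by
    have := Finset.single_le_sum (f := fun σ : K →+* ℂ => ‖σ a‖ + ‖σ b‖)
      (fun σ _ => by positivity) (Finset.mem_univ σ)
    linarith
  set e : ℝ := 1 + ∑ σ : K →+* ℂ, ∑ j ∈ Finset.range (D + 1), ∑ i ∈ (g j).support,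
    ‖σ ((g j).coeff i)‖ with he
  have he1 : 1 ≤ e := by
    have : 0 ≤ ∑ σ : K →+* ℂ, ∑ j ∈ Finset.range (D + 1), ∑ i ∈ (g j).support,
      ‖σ ((g j).coeff i)‖ := Finset.sum_nonneg fun σ _ => Finset.sum_nonneg fun j _ =>
        Finset.sum_nonneg fun i _ => norm_nonneg _
    linarith
  set τ : (K →+* ℂ) → ℂ → ((𝓞 K)[X] →+* ℂ) := fun σ z =>
    eval₂RingHom (σ.comp (algebraMap (𝓞 K) K)) z with hτ
  have hge : ∀ (σ : K →+* ℂ) (z : ℂ), ‖z‖ = 1 → ∀ j ≤ D, ‖τ σ z (g j)‖ ≤ e := by
    intro σ z hz j hj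
    have h1 : ‖τ σ z (g j)‖ ≤ ∑ i ∈ (g j).support, ‖σ ((g j).coeff i)‖ := by
      rw [hτ]
      simp only [coe_eval₂RingHom]
      rw [eval₂_eq_sum, Polynomial.sum]
      refine norm_sum_le_of_le _ fun i _ => ?_
      rw [norm_mul, norm_pow, hz, one_pow, mul_one]
      rfl
    have h2 := Finset.single_le_sum (f := fun j => ∑ i ∈ (g j).support, ‖σ ((g j).coeff i)‖)
      (fun j _ => Finset.sum_nonneg fun i _ => norm_nonneg _)
      (Finset.mem_range.mpr (Nat.lt_succ_of_le hj))
    have h3 := Finset.single_le_sum (f := fun σ : K →+* ℂ => ∑ j ∈ Finset.range (D + 1),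
      ∑ i ∈ (g j).support, ‖σ ((g j).coeff i)‖)
      (fun σ _ => Finset.sum_nonneg fun j _ => Finset.sum_nonneg fun i _ => norm_nonneg _)
      (Finset.mem_univ σ)
    linarith
  set M : ℝ := (D.factorial : ℝ) * 2 ^ D * (A * (D ^ q + 1) * e) ^ (2 * D) with hM
  have hM1 : 1 ≤ M := by
    have h2 : (1 : ℝ) ≤ D.factorial := by exact_mod_cast D.factorial_pos
    have h3 : (1 : ℝ) ≤ A * (D ^ q + 1) * e := by
      have : (0 : ℝ) ≤ (D : ℝ) ^ q := by positivity
      have h4 : 1 ≤ A * ((D : ℝ) ^ q + 1) := one_le_mul_of_one_le_of_one_le hA1 (by linarith)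
      exact one_le_mul_of_one_le_of_one_le h4 he1
    exact one_le_mul_of_one_le_of_one_le
      (one_le_mul_of_one_le_of_one_le h2 (one_le_pow₀ (by norm_num))) (one_le_pow₀ h3)
  have hlogM : 0 ≤ Real.log M := Real.log_nonneg hM1
  -- the height in terms of the degree
  have hheight : ∀ k : ℕ,
      (fc q (algebraMap K F c))^[k] ξ ≠ (fc q (algebraMap K F c))^[k] η →
      ∀ x y : Ω, Spec K ξ η x y →
        (fc q (algebraMap K Ω c))^[k] x = (fc q (algebraMap K Ω c))^[k] y →
          (minpoly K x).natDegree * absLogHeight₁ x ≤ (q : ℝ) ^ k * Real.log M := by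
    intro k hk x y hxy hkxy
    set Fk := FK q (C a) (C b) D g X k with hFk
    have hFk0 : Fk ≠ 0 := hnz q c a b hb0 hab' k hk
    have e1 : evK (K := K) x Fk = 0 := by
      rw [hFk, map_FK, evK_X, evK_C, evK_C, hab', map_mul]
      exact FK_eq_zero hD q _ _ _ x y (hxy.rel D g hrel) k hkxy
    have h5 : Fk.map (algebraMap (𝓞 K) K) ≠ 0 := by
      rw [Polynomial.map_ne_zero_iff (FaithfulSMul.algebraMap_injective (𝓞 K) K)]
      exact hFk0
    have h6 := abs_height_bound (Fk.map (algebraMap (𝓞 K) K)) h5 (by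
      intro i
      rw [coeff_map]
      exact (Fk.coeff i).2) (B := M ^ q ^ k) (one_le_pow₀ hM1) (by
      intro σ z hz
      have e2 : ((Fk.map (algebraMap (𝓞 K) K)).map σ).eval z = τ σ z Fk := by
        rw [Polynomial.map_map, eval_map]
        rfl
      rw [e2, hFk, map_FK]
      refine FK_bound hD hq2 ?_ ?_ hA1 (hge σ z hz) ?_ he1 k
      · rw [hτ]
        simp only [coe_eval₂RingHom, eval₂_C]
        exact le_trans (by
          have := norm_nonneg (σ b)
          change ‖σ a‖ ≤ _
          linarith) (hAab σ)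
      · rw [hτ]
        simp only [coe_eval₂RingHom, eval₂_C]
        exact le_trans (by
          have := norm_nonneg (σ a)
          change ‖σ b‖ ≤ _
          linarith) (hAab σ)
      · rw [hτ]
        simp only [coe_eval₂RingHom, eval₂_X]
        rw [hz]; exact he1) (x := x) (by
      exact e1)
    rw [Real.log_pow] at h6
    exact_mod_cast h6
  refine ⟨B1 + (q * (C0 * D) * Real.log M + Real.log M), by positivity, ?_⟩
  intro k hk x y hxy hkxy
  by_cases hbad : evK (K := K) x (g D) = 0
  · have h7 := hB1' x (by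
      rw [eval_map_algebraMap]
      exact hbad)
    have h8 : 0 ≤ q * (C0 * D) * Real.log M + Real.log M := by positivity
    linarith
  have hxi : IsIntegral K x := Algebra.IsIntegral.isIntegral x
  have hdeg : (0 : ℝ) < (minpoly K x).natDegree := by
    exact_mod_cast minpoly.natDegree_pos hxi
  -- the minimal level
  have hex : ∃ n, (fc q (algebraMap K Ω c))^[n] x = (fc q (algebraMap K Ω c))^[n] y := ⟨k, hkxy⟩
  set n := Nat.find hex with hn
  have hn1 := Nat.find_spec hex
  rw [← hn] at hn1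
  have hnk : n ≤ k := Nat.find_min' hex hkxy
  have hnF : (fc q (algebraMap K F c))^[n] ξ ≠ (fc q (algebraMap K F c))^[n] η := by
    intro h
    apply hk
    obtain ⟨r, rfl⟩ : ∃ r, k = r + n := ⟨k - n, by omega⟩
    rw [Function.iterate_add_apply, Function.iterate_add_apply, h]
  have h9 := hheight n hnF x y hxy hn1
  rcases Nat.eq_zero_or_pos n with hn0 | hnpos
  · rw [hn0, pow_zero, one_mul] at h9
    have h10 : absLogHeight₁ x ≤ (minpoly K x).natDegree * absLogHeight₁ x := by
      have h11 : (1 : ℝ) ≤ (minpoly K x).natDegree := by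
        exact_mod_cast minpoly.natDegree_pos hxi
      exact le_mul_of_one_le_left (abs_nonneg x) h11
    have h12 : 0 ≤ q * (C0 * D) * Real.log M := by positivity
    linarith
  · obtain ⟨N, hN⟩ : ∃ N, n = N + 1 := ⟨n - 1, by omega⟩
    rw [hN] at hn1 h9
    have hmin : (fc q (algebraMap K Ω c))^[N] x ≠ (fc q (algebraMap K Ω c))^[N] y :=
      Nat.find_min hex (by omega)
    -- the polynomial satisfied by `y` over `K(x)`
    set k1 := IntermediateField.adjoin K {x} with hk1
    set x1 : k1 := IntermediateField.AdjoinSimple.gen K x with hx1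
    set G : k1[X] := ∑ j ∈ Finset.range (D + 1), C (evK x1 (g j)) * X ^ j with hG
    have hx1e : ∀ j, algebraMap k1 Ω (evK x1 (g j)) = evK x (g j) := by
      intro j
      exact map_evK (IsScalarTower.toAlgHom K k1 Ω) x1 (g j)
    have hGcoeff : G.coeff D = evK x1 (g D) := by
      rw [hG, finsetSum_coeff]
      simp [coeff_X_pow]
    have hG0 : G ≠ 0 := by
      intro h
      apply hbad
      rw [h, coeff_zero] at hGcoeff
      rw [← hx1e, ← hGcoeff, map_zero]
    have hGD : G.natDegree ≤ D := by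
      rw [hG]
      refine natDegree_sum_le_of_forall_le _ _ fun j hj => ?_
      refine (natDegree_C_mul_X_pow_le _ _).trans ?_
      exact Nat.lt_succ_iff.mp (Finset.mem_range.mp hj)
    have hGy : aeval y G = 0 := by
      rw [hG, map_sum, ← hxy.rel D g hrel]
      refine Finset.sum_congr rfl fun j _ => ?_
      rw [map_mul, aeval_C, map_pow, aeval_X, hx1e]
    have hfd1 : FiniteDimensional K k1 := IntermediateField.adjoin.finiteDimensional hxi
    have h13 := degree_le (Ω := Ω) hC0 D k1 x1 G hG0 hGD hGy N hn1 hmin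
    rw [show Module.finrank K k1 = (minpoly K x).natDegree from
      IntermediateField.adjoin.finrank hxi] at h13
    have h14 : (q : ℝ) ^ N ≤ C0 * (D * (minpoly K x).natDegree) := by exact_mod_cast h13
    have h15 : (minpoly K x).natDegree * absLogHeight₁ x ≤
        (minpoly K x).natDegree * (q * (C0 * D) * Real.log M) := by
      calc _ ≤ (q : ℝ) ^ (N + 1) * Real.log M := h9
        _ = q * (q : ℝ) ^ N * Real.log M := by ring
        _ ≤ q * (C0 * (D * (minpoly K x).natDegree)) * Real.log M := by gcongr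
        _ = _ := by ring
    have h16 := le_of_mul_le_mul_left h15 hdeg
    linarith

end

end Pool.Agent.UHT
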